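import Pool.Agent.Helper808.Epstein.Main

set_option autoImplicit false

namespace Pool.Agent.Results.MP_006ce8_co.DecidedFamilies

open Pool.Agent.Helper808 Pool.Agent.Helper808.Epstein

/-- **Main result.** (1) If the remainder `n - sq n` is a draw, then `n` is not a loss, and `n` is
a win iff `n + sq n` is a loss. (2) If `a, b` are draws, `a ≤ 2k`, `b ≤ 2m`, `2k² + a = m² + b`,
then `k² + a` is a draw. (3) If `0 < c`, `c² ≤ 2k`, `2k² + c² = m²`, then `k² + c²` is a loss.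
(4) If `a` is a loss, `a ≤ 2k`, `0 < k`, then `k² + a` is a win. (5)-(7) There are infinitely many
draws, infinitely many losses, and infinitely many wins that are not squares. -/
theorem result :
    (∀ n : ℕ, 0 < n → Draw (n - Epstein.sq n) →
      ¬ Loss n ∧ (Win n ↔ Loss (n + Epstein.sq n))) ∧
    (∀ a b k m : ℕ, Draw a → Draw b → a ≤ 2 * k → b ≤ 2 * m → 2 * k ^ 2 + a = m ^ 2 + b →
      Draw (k ^ 2 + a)) ∧
    (∀ c k m : ℕ, 0 < c → c ^ 2 ≤ 2 * k → 2 * k ^ 2 + c ^ 2 = m ^ 2 → Loss (k ^ 2 + c ^ 2)) ∧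
    (∀ a k : ℕ, Loss a → a ≤ 2 * k → 0 < k → Win (k ^ 2 + a)) ∧
    {n : ℕ | Draw n}.Infinite ∧ {n : ℕ | Loss n}.Infinite ∧
    {n : ℕ | Win n ∧ ¬ IsSquare n}.Infinite :=
  ⟨crit, fam.1, fam.2.1, fam.2.2, inf_draw, inf_loss, inf_win⟩

end Pool.Agent.Results.MP_006ce8_co.DecidedFamilies
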